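import Pool.Agent.Helper34.PU.Goals

set_option autoImplicit false

/-! # Packet TYPE (2693): colouring of the sets of a cover -/

open Finset
open scoped Classical

namespace Pool.Agent.Helper30.PU

open Pool.Agent.Helper34.PU

/-- greedy colouring -/
theorem greedy {ι : Type} [Fintype ι] (R : ι → ι → Prop) (hsymm : ∀ i j, R i j → R j i) (d : ℕ)
    (hd : ∀ i, (univ.filter (fun j => R i j)).card ≤ d) :
    ∃ τ : ι → Fin (d + 1), ∀ i j, i ≠ j → R i j → τ i ≠ τ j := by
  have key : ∀ S : Finset ι, ∃ τ : ι → Fin (d + 1), ∀ i ∈ S, ∀ j ∈ S, i ≠ j → R i j →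
      τ i ≠ τ j := by
    intro S
    induction S using Finset.induction with
    | empty => exact ⟨fun _ => 0, by simp⟩
    | insert a S ha ih =>
      obtain ⟨τ, hτ⟩ := ih
      obtain ⟨c, hc⟩ : ∃ c : Fin (d + 1), c ∉ (univ.filter (fun j => R a j)).image τ := by
        by_contra hcon
        push Not at hcon
        have h1 : (univ : Finset (Fin (d + 1))) ⊆ (univ.filter (fun j => R a j)).image τ :=
          fun c _ => hcon c
        have h2 := Finset.card_le_card h1
        have h3 : ((univ.filter (fun j => R a j)).image τ).card ≤ d :=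
          Finset.card_image_le.trans (hd a)
        rw [Finset.card_univ, Fintype.card_fin] at h2
        omega
      have hc' : ∀ j, R a j → τ j ≠ c := by
        intro j hj hjc
        exact hc (Finset.mem_image.2 ⟨j, by simp [hj], hjc⟩)
      refine ⟨Function.update τ a c, ?_⟩
      intro i hi j hj hij hR
      rcases Finset.mem_insert.1 hi with rfl | hi'
      · have hja : j ≠ i := fun h => hij h.symm
        rw [Function.update_self, Function.update_of_ne hja]
        exact fun h => hc' j hR h.symm
      · rcases Finset.mem_insert.1 hj with rfl | hj'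
        · rw [Function.update_self, Function.update_of_ne hij]
          exact hc' i (hsymm _ _ hR)
        · have hia : i ≠ a := fun h => ha (h ▸ hi')
          have hja : j ≠ a := fun h => ha (h ▸ hj')
          rw [Function.update_of_ne hia, Function.update_of_ne hja]
          exact hτ i hi' j hj' hij hR
  obtain ⟨τ, hτ⟩ := key univ
  exact ⟨τ, fun i j hij hR => hτ i (mem_univ _) j (mem_univ _) hij hR⟩

/-- the conflict relation -/
def Confl {ι V : Type} (X : ι → Finset V) (i j : ι) : Prop :=
  ∃ (k : ι) (v w : V), v ∈ X i ∧ v ∈ X k ∧ w ∈ X j ∧ w ∈ X k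

theorem type_col : TypeStmt := by
  intro ι V _ _ X K β hK hβ
  refine (greedy (Confl X) ?_ (K ^ 2 * β ^ 2) ?_).imp fun τ h i j hij hR => h i j hij hR
  · rintro i j ⟨k, v, w, h1, h2, h3, h4⟩
    exact ⟨k, w, v, h3, h4, h1, h2⟩
  · intro i
    have hsub : (univ.filter (fun j => Confl X i j)) ⊆ (X i).biUnion (fun v => (univ.filter (fun k => v ∈ X k)).biUnion
          (fun k => (X k).biUnion (fun w => univ.filter (fun j => w ∈ X j)))) := by
      intro j hj
      obtain ⟨k, v, w, h1, h2, h3, h4⟩ := (Finset.mem_filter.1 hj).2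
      simp only [Finset.mem_biUnion, Finset.mem_filter, Finset.mem_univ, true_and]
      exact ⟨v, h1, k, h2, w, h4, h3⟩
    refine (Finset.card_le_card hsub).trans ?_
    have e1 : ∀ k : ι, ((X k).biUnion (fun w => univ.filter (fun j => w ∈ X j))).card ≤ K * β := by
      intro k
      refine (Finset.card_biUnion_le_card_mul _ _ β fun w _ => hβ w).trans ?_
      exact Nat.mul_le_mul_right _ (hK k)
    have e2 : ∀ v : V, ((univ.filter (fun k => v ∈ X k)).biUnion
          (fun k => (X k).biUnion (fun w => univ.filter (fun j => w ∈ X j)))).card ≤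
          β * (K * β) := by
      intro v
      refine (Finset.card_biUnion_le_card_mul _ _ (K * β) fun k _ => e1 k).trans ?_
      exact Nat.mul_le_mul_right _ (hβ v)
    refine (Finset.card_biUnion_le_card_mul _ _ (β * (K * β)) fun v _ => e2 v).trans ?_
    calc (X i).card * (β * (K * β)) ≤ K * (β * (K * β)) := Nat.mul_le_mul_right _ (hK i)
      _ = K ^ 2 * β ^ 2 := by ring

end Pool.Agent.Helper30.PU
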